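import Mathlib

/-!
# MP_7f7658_nt: extreme Wieferich pairs `(p, q)` with `q > p ^ 2` are log-sparse for every `p`

For primes `p < q`, `(p, q)` is an *extreme Wieferich pair* if `v_q (p ^ (q - 1) - 1) ≥ 2` and
`v_p (q ^ (p - 1) - 1) ≥ max 2 (log_p q)`.  The problem asks whether there is one with
`q > p ^ 2`.  The theorem `result` bounds the number of such `q` for every fixed `p`: at most
`(p - 3) / 2` in every interval `(p ^ v, p ^ (v + 1))`, hence at most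
`((p - 3) / 2) * (⌊log_p X⌋ - 1)` up to `X`.

Proof.  If `(p, q)` is extreme and `p ^ v < q < p ^ (v + 1)`, then `p ^ (v + 1)` divides
`q ^ (p - 1) - 1`, so `q` is a `(p - 1)`-th root of unity modulo `p ^ (v + 1)`; such roots are
determined by their residues modulo `p` (`lift`), and `x`, `p ^ (v + 1) - x` have opposite
parities, so at most one of them is an odd prime; `1` and `p ^ (v + 1) - 1` are excluded.
-/

namespace Pool.Agent.MP7f7658

/-- `(p, q)` is an extreme Wieferich pair (the definition of the problem file). -/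
def Extreme (p q : ℕ) : Prop :=
  p.Prime ∧ q.Prime ∧ p < q ∧ 2 ≤ padicValNat q (p ^ (q - 1) - 1) ∧
    max 2 (Real.logb p q) ≤ (padicValNat p (q ^ (p - 1) - 1) : ℝ)

/-- Two `(p-1)`-th roots of unity modulo `p ^ N` that agree modulo `p` agree modulo `p ^ N`. -/
lemma lift {p : ℕ} (hp : p.Prime) {N : ℕ} {x y : ℤ} (hx : ¬ (p : ℤ) ∣ x)
    (hxy : (p : ℤ) ∣ x - y) (h1 : (p : ℤ) ^ N ∣ x ^ (p - 1) - 1)
    (h2 : (p : ℤ) ^ N ∣ y ^ (p - 1) - 1) : (p : ℤ) ^ N ∣ x - y := by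
  have hn : ¬ (p : ℤ) ∣ ((p - 1 : ℕ) : ℤ) := by
    intro h
    have h' := Int.natCast_dvd_natCast.1 h
    have h3 := Nat.le_of_dvd (by have := hp.two_le; omega) h'
    have := hp.two_le
    omega
  have key := emultiplicity_pow_sub_pow_of_prime (Nat.prime_iff_prime_int.1 hp) hxy hx hn
  have h3 : (p : ℤ) ^ N ∣ x ^ (p - 1) - y ^ (p - 1) := by
    have := dvd_sub h1 h2
    simpa using this
  rw [pow_dvd_iff_le_emultiplicity, key] at h3
  exact pow_dvd_of_le_emultiplicity h3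

/-- The two facts used about an extreme pair: `q < p ^ n` and `p ^ n ∣ q ^ (p - 1) - 1`
for `n = v_p (q ^ (p - 1) - 1)`. -/
lemma Extreme.lt_pow {p q : ℕ} (h : Extreme p q) :
    q < p ^ padicValNat p (q ^ (p - 1) - 1) := by
  obtain ⟨hp, hq, hpq, -, h⟩ := h
  have h1 : Real.logb p q ≤ (padicValNat p (q ^ (p - 1) - 1) : ℝ) := (le_max_right _ _).trans h
  rw [Real.logb_le_iff_le_rpow (by exact_mod_cast hp.one_lt) (by exact_mod_cast hq.pos),
    Real.rpow_natCast] at h1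
  have h2 : q ≤ p ^ padicValNat p (q ^ (p - 1) - 1) := by exact_mod_cast h1
  refine lt_of_le_of_ne h2 fun h3 => ?_
  have h4 : p.Prime := hp
  rcases Nat.eq_zero_or_pos (padicValNat p (q ^ (p - 1) - 1)) with h0 | h0
  · rw [h0, pow_zero] at h3
    exact hq.one_lt.ne' h3
  · have : p ∣ q := by
      rw [h3]
      exact dvd_pow_self p h0.ne'
    rcases (Nat.dvd_prime hq).1 this with h5 | h5
    · exact hp.one_lt.ne' h5
    · omega

lemma Extreme.dvd {p q N : ℕ} (h : Extreme p q)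
    (hN : N ≤ padicValNat p (q ^ (p - 1) - 1)) : (p : ℤ) ^ N ∣ (q : ℤ) ^ (p - 1) - 1 := by
  have h1 : p ^ N ∣ q ^ (p - 1) - 1 := (pow_dvd_pow p hN).trans pow_padicValNat_dvd
  have h2 : 1 ≤ q ^ (p - 1) := Nat.one_le_pow _ _ h.2.1.pos
  have h3 := Int.natCast_dvd_natCast.2 h1
  push_cast [Nat.cast_sub h2] at h3
  exact h3

lemma Extreme.not_dvd {p q : ℕ} (h : Extreme p q) : ¬ (p : ℤ) ∣ (q : ℤ) := by
  intro h1
  have h2 := Int.natCast_dvd_natCast.1 h1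
  rcases (Nat.dvd_prime h.2.1).1 h2 with h5 | h5
  · exact h.1.one_lt.ne' h5
  · have := h.2.2.1
    omega

lemma Extreme.odd_q {p q : ℕ} (h : Extreme p q) : q % 2 = 1 := by
  rcases h.2.1.eq_two_or_odd with h1 | h1
  · have := h.2.2.1
    have := h.1.two_le
    omega
  · exact h1

/-- `q` is not `1` modulo `p`. -/
lemma Extreme.not_dvd_sub {p q : ℕ} (h : Extreme p q) : ¬ (p : ℤ) ∣ (q : ℤ) - 1 := by
  intro h1
  have h2 := lift (y := 1) h.1 h.not_dvd h1 (h.dvd le_rfl) (by simp)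
  have h3 := h.lt_pow
  have h4 : (0 : ℤ) < (q : ℤ) - 1 := by have := h.2.1.one_lt; omega
  have h5 := Int.le_of_dvd h4 h2
  have h6 : ((q : ℕ) : ℤ) < (p : ℤ) ^ padicValNat p (q ^ (p - 1) - 1) := by exact_mod_cast h3
  omega

/-- `p` is odd. -/
lemma Extreme.odd_p {p q : ℕ} (h : Extreme p q) : p % 2 = 1 := by
  rcases h.1.eq_two_or_odd with h1 | h1
  · exfalso
    apply h.not_dvd_sub
    have := h.odd_q
    subst h1
    omega
  · exact h1

lemma neg_pow_sub {p q : ℕ} (hp : p % 2 = 1) : (-(q : ℤ)) ^ (p - 1) = (q : ℤ) ^ (p - 1) := by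
  have : Even (p - 1) := by
    rw [Nat.even_iff]
    omega
  exact this.neg_pow _

lemma pow_odd {p : ℕ} (hp : p % 2 = 1) (N : ℕ) : p ^ N % 2 = 1 := by
  have : Odd (p ^ N) := (Nat.odd_iff.2 hp).pow
  exact Nat.odd_iff.1 this

/-- `q` is not `-1` modulo `p`. -/
lemma Extreme.not_dvd_add {p q : ℕ} (h : Extreme p q) : ¬ (p : ℤ) ∣ (q : ℤ) + 1 := by
  intro h1
  have h2 := lift (y := -1) h.1 h.not_dvd (by simpa using h1) (h.dvd le_rfl) (by
    have := neg_pow_sub (q := 1) h.odd_p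
    push_cast at this
    rw [this]
    simp)
  have h3 := h.lt_pow
  set n := padicValNat p (q ^ (p - 1) - 1)
  have h2' : (p : ℤ) ^ n ∣ (q : ℤ) + 1 := by simpa using h2
  have h7 : p ^ n ∣ q + 1 := by exact_mod_cast h2'
  have h8 := Nat.le_of_dvd (by omega) h7
  have h9 := pow_odd h.odd_p n
  have h10 := h.odd_q
  omega

/-- Two extreme partners `q₁, q₂` of `p` in `(p ^ v, p ^ (v + 1))`, congruent modulo `p`,
are equal. -/
lemma eq_of_mod {p q₁ q₂ v : ℕ} (h₁ : Extreme p q₁) (h₂ : Extreme p q₂)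
    (hv₁ : p ^ v < q₁) (hv₁' : q₁ < p ^ (v + 1)) (hv₂ : p ^ v < q₂) (hv₂' : q₂ < p ^ (v + 1))
    (h : (p : ℤ) ∣ (q₁ : ℤ) - q₂) : q₁ = q₂ := by
  have hn₁ : v + 1 ≤ padicValNat p (q₁ ^ (p - 1) - 1) :=
    (Nat.pow_lt_pow_iff_right h₁.1.one_lt).1 (hv₁.trans h₁.lt_pow)
  have hn₂ : v + 1 ≤ padicValNat p (q₂ ^ (p - 1) - 1) :=
    (Nat.pow_lt_pow_iff_right h₁.1.one_lt).1 (hv₂.trans h₂.lt_pow)
  have h3 := lift h₁.1 h₁.not_dvd h (h₁.dvd hn₁) (h₂.dvd hn₂)
  have e₁ : (q₁ : ℤ) < (p : ℤ) ^ (v + 1) := by exact_mod_cast hv₁'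
  have e₂ : (q₂ : ℤ) < (p : ℤ) ^ (v + 1) := by exact_mod_cast hv₂'
  have h4 : (q₁ : ℤ) - q₂ = 0 := by
    apply Int.eq_zero_of_abs_lt_dvd h3
    rw [abs_lt]
    constructor <;> omega
  omega

/-- Two extreme partners of `p` in `(p ^ v, p ^ (v + 1))` do not sum to `0` modulo `p`. -/
lemma not_neg_mod {p q₁ q₂ v : ℕ} (h₁ : Extreme p q₁) (h₂ : Extreme p q₂)
    (hv₁ : p ^ v < q₁) (hv₁' : q₁ < p ^ (v + 1)) (hv₂ : p ^ v < q₂) (hv₂' : q₂ < p ^ (v + 1)) :
    ¬ (p : ℤ) ∣ (q₁ : ℤ) + q₂ := by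
  intro h
  have hn₁ : v + 1 ≤ padicValNat p (q₁ ^ (p - 1) - 1) :=
    (Nat.pow_lt_pow_iff_right h₁.1.one_lt).1 (hv₁.trans h₁.lt_pow)
  have hn₂ : v + 1 ≤ padicValNat p (q₂ ^ (p - 1) - 1) :=
    (Nat.pow_lt_pow_iff_right h₁.1.one_lt).1 (hv₂.trans h₂.lt_pow)
  have h3 := lift (y := -(q₂ : ℤ)) h₁.1 h₁.not_dvd (by simpa using h) (h₁.dvd hn₁) (by
    rw [neg_pow_sub h₁.odd_p]
    exact h₂.dvd hn₂)
  have h3' : (p : ℤ) ^ (v + 1) ∣ (q₁ : ℤ) + q₂ := by simpa using h3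
  have h4 : p ^ (v + 1) ∣ q₁ + q₂ := by exact_mod_cast h3'
  obtain ⟨c, hc⟩ := h4
  have h5 := pow_odd h₁.odd_p (v + 1)
  have h6 := h₁.odd_q
  have h7 := h₂.odd_q
  have hc1 : c = 1 := by
    rcases Nat.lt_or_ge c 1 with hc0 | hc0
    · have : c = 0 := by omega
      subst this
      omega
    · rcases Nat.lt_or_ge c 2 with hc2 | hc2
      · omega
      · have := Nat.mul_le_mul_left (p ^ (v + 1)) hc2
        omega
  subst hc1
  omega

/-- At most `(p - 3) / 2` extreme partners in `(p ^ v, p ^ (v + 1))`. -/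
theorem interval_bound (p v : ℕ) :
    {q | Extreme p q ∧ p ^ v < q ∧ q < p ^ (v + 1)}.ncard ≤ (p - 3) / 2 := by
  by_cases hne : {q | Extreme p q ∧ p ^ v < q ∧ q < p ^ (v + 1)} = ∅
  · rw [hne, Set.ncard_empty]
    exact Nat.zero_le _
  obtain ⟨q₀, hq₀, -, -⟩ := Set.nonempty_iff_ne_empty.2 hne
  have hodd := hq₀.odd_p
  have hp2 := hq₀.1.two_le
  have hcard : (Set.Icc 2 ((p - 1) / 2) : Set ℕ).ncard = (p - 3) / 2 := by
    rw [Set.ncard_eq_toFinset_card', Set.toFinset_Icc, Nat.card_Icc]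
    omega
  rw [← hcard]
  have hppos : 0 < p := by omega
  refine Set.ncard_le_ncard_of_injOn (fun q => min (q % p) (p - q % p)) ?_ ?_
    (Set.finite_Icc _ _)
  · rintro q ⟨hq, -, -⟩
    have hr := Nat.mod_lt q hppos
    have h0 : q % p ≠ 0 := by
      intro h0
      exact hq.not_dvd (Int.natCast_dvd_natCast.2 (Nat.dvd_of_mod_eq_zero h0))
    have h1 : q % p ≠ 1 := by
      intro h1
      apply hq.not_dvd_sub
      refine ⟨((q / p : ℕ) : ℤ), ?_⟩
      have := Nat.div_add_mod q p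
      rw [h1] at this
      have e : ((p * (q / p) + 1 : ℕ) : ℤ) = (q : ℤ) := by exact_mod_cast this
      push_cast at e
      push_cast
      linarith
    have h2 : q % p ≠ p - 1 := by
      intro h2
      apply hq.not_dvd_add
      refine ⟨((q / p + 1 : ℕ) : ℤ), ?_⟩
      have := Nat.div_add_mod q p
      have e' : q + 1 = p * (q / p + 1) := by
        have e1 : p * (q / p + 1) = p * (q / p) + p := by ring
        omega
      exact_mod_cast e'
    simp only [Set.mem_Icc]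
    constructor
    · rw [le_min_iff]
      omega
    · rcases le_total (q % p) (p - q % p) with h | h
      · rw [min_eq_left h]
        omega
      · rw [min_eq_right h]
        omega
  · rintro q₁ ⟨h₁, hv₁, hv₁'⟩ q₂ ⟨h₂, hv₂, hv₂'⟩ h
    have hr₁ := Nat.mod_lt q₁ hppos
    have hr₂ := Nat.mod_lt q₂ hppos
    have hd₁ := Nat.div_add_mod q₁ p
    have hd₂ := Nat.div_add_mod q₂ p
    have hcase : q₁ % p = q₂ % p ∨ q₁ % p + q₂ % p = p := by
      simp only at h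
      rcases le_total (q₁ % p) (p - q₁ % p) with ha | ha <;>
      rcases le_total (q₂ % p) (p - q₂ % p) with hb | hb <;>
      simp only [min_eq_left ha, min_eq_right ha, min_eq_left hb, min_eq_right hb] at h <;>
      omega
    rcases hcase with hc | hc
    · apply eq_of_mod h₁ h₂ hv₁ hv₁' hv₂ hv₂'
      refine ⟨((q₁ / p : ℕ) : ℤ) - ((q₂ / p : ℕ) : ℤ), ?_⟩
      have e₁ : ((p * (q₁ / p) + q₁ % p : ℕ) : ℤ) = (q₁ : ℤ) := by exact_mod_cast hd₁
      have e₂ : ((p * (q₂ / p) + q₂ % p : ℕ) : ℤ) = (q₂ : ℤ) := by exact_mod_cast hd₂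
      rw [hc] at e₁
      rw [Nat.cast_add, Nat.cast_mul] at e₁ e₂
      linarith
    · exfalso
      apply not_neg_mod h₁ h₂ hv₁ hv₁' hv₂ hv₂'
      refine ⟨((q₁ / p + q₂ / p + 1 : ℕ) : ℤ), ?_⟩
      have e : q₁ + q₂ = p * (q₁ / p + q₂ / p + 1) := by
        have e1 : p * (q₁ / p + q₂ / p + 1) = p * (q₁ / p) + p * (q₂ / p) + p := by ring
        omega
      exact_mod_cast e

/-- At most `((p - 3) / 2) * (⌊log_p X⌋ - 1)` extreme partners `q > p ^ 2` up to `X`. -/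
theorem count_bound (p X : ℕ) :
    {q | Extreme p q ∧ p ^ 2 < q ∧ q ≤ X}.ncard ≤ (p - 3) / 2 * (Nat.log p X - 1) := by
  classical
  have hsub : {q | Extreme p q ∧ p ^ 2 < q ∧ q ≤ X} ⊆
      ⋃ v ∈ Finset.Icc 2 (Nat.log p X), {q | Extreme p q ∧ p ^ v < q ∧ q < p ^ (v + 1)} := by
    rintro q ⟨hq, h2, hX⟩
    have hp1 := hq.1.one_lt
    have hq0 : q ≠ 0 := hq.2.1.pos.ne'
    simp only [Set.mem_iUnion, Set.mem_ofPred_eq, exists_prop, Finset.mem_Icc]
    refine ⟨Nat.log p q, ⟨?_, Nat.log_mono_right hX⟩, hq, ?_, Nat.lt_pow_succ_log_self hp1 q⟩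
    · by_contra hlt
      have hlt' : Nat.log p q < 2 := by omega
      rw [Nat.log_lt_iff_lt_pow hp1 hq0] at hlt'
      omega
    · refine lt_of_le_of_ne (Nat.pow_log_le_self p hq0) fun h3 => ?_
      rcases Nat.eq_zero_or_pos (Nat.log p q) with h0 | h0
      · rw [h0, pow_zero] at h3
        exact hq.2.1.one_lt.ne h3
      · have : p ∣ q := by
          rw [← h3]
          exact dvd_pow_self p h0.ne'
        exact hq.not_dvd (Int.natCast_dvd_natCast.2 this)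
  have hfin : ∀ v, {q | Extreme p q ∧ p ^ v < q ∧ q < p ^ (v + 1)}.Finite := fun v =>
    (Set.finite_lt_nat (p ^ (v + 1))).subset fun q hq => hq.2.2
  have hfinU : (⋃ v ∈ Finset.Icc 2 (Nat.log p X),
      {q | Extreme p q ∧ p ^ v < q ∧ q < p ^ (v + 1)}).Finite :=
    (Finset.Icc 2 (Nat.log p X)).finite_toSet.biUnion fun v _ => hfin v
  refine (Set.ncard_le_ncard hsub hfinU).trans ?_
  have h1 : ∀ s : Finset ℕ, (⋃ v ∈ s, {q | Extreme p q ∧ p ^ v < q ∧ q < p ^ (v + 1)}).ncard ≤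
      s.card * ((p - 3) / 2) := by
    intro s
    induction s using Finset.induction_on with
    | empty => simp
    | insert a s ha ih =>
      rw [Finset.set_biUnion_insert, Finset.card_insert_of_notMem ha]
      calc _ ≤ _ := Set.ncard_union_le _ _
        _ ≤ (p - 3) / 2 + s.card * ((p - 3) / 2) := Nat.add_le_add (interval_bound p a) ih
        _ = (s.card + 1) * ((p - 3) / 2) := by ring
  refine (h1 _).trans ?_
  rw [Nat.card_Icc, mul_comm]
  exact Nat.mul_le_mul_left _ (by omega)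

lemma one_add_pow_mod (q m : ℕ) : (1 + (q : ℤ)) ^ m ≡ 1 + m * q [ZMOD (q : ℤ) ^ 2] := by
  induction m with
  | zero => simp [Int.ModEq]
  | succ m ih =>
    have h1 := ih.mul_right (1 + (q : ℤ))
    rw [← pow_succ] at h1
    refine h1.trans ?_
    refine (Int.modEq_iff_dvd.2 ⟨-(m : ℤ), ?_⟩)
    push_cast
    ring

/-- The cofactor: with `d` the order of `q` modulo `p` and `n = v_p (q ^ (p - 1) - 1)`,
`1 + q + ... + q ^ (d - 1) = p ^ n * L` and `L ^ (q - 1) = 1 - q` modulo `q ^ 2`. -/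
theorem cofactor {p q : ℕ} (h : Extreme p q) :
    3 ≤ orderOf (q : ZMod p) ∧ ∃ L : ℕ,
      ∑ i ∈ Finset.range (orderOf (q : ZMod p)), q ^ i =
        p ^ padicValNat p (q ^ (p - 1) - 1) * L ∧
      (L : ℤ) ^ (q - 1) ≡ 1 - q [ZMOD (q : ℤ) ^ 2] ∧
      ∃ r : ℕ, r.Prime ∧ r ∣ L ∧ ¬ q ^ 2 ∣ r ^ (q - 1) - 1 := by
  have hp := h.1
  have hq := h.2.1
  have : Fact p.Prime := ⟨hp⟩
  have hq0 : (q : ZMod p) ≠ 0 := by
    intro h0
    rw [ZMod.natCast_eq_zero_iff] at h0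
    exact h.not_dvd (Int.natCast_dvd_natCast.2 h0)
  have hd0 : 0 < orderOf (q : ZMod p) := by
    have : IsOfFinOrder (q : ZMod p) := by
      rw [isOfFinOrder_iff_pow_eq_one]
      exact ⟨p - 1, by have := hp.two_le; omega, ZMod.pow_card_sub_one_eq_one hq0⟩
    exact this.orderOf_pos
  have hd1 : orderOf (q : ZMod p) ≠ 1 := by
    intro h1
    rw [orderOf_eq_one_iff] at h1
    apply h.not_dvd_sub
    rw [← ZMod.intCast_zmod_eq_zero_iff_dvd] 
    push_cast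
    rw [h1, sub_self]
  have hd2 : orderOf (q : ZMod p) ≠ 2 := by
    intro h1
    have h2 := pow_orderOf_eq_one (q : ZMod p)
    rw [h1] at h2
    rw [sq] at h2
    rcases mul_self_eq_one_iff.1 h2 with h3 | h3
    · exact hd1 (orderOf_eq_one_iff.2 h3)
    · apply h.not_dvd_add
      rw [← ZMod.intCast_zmod_eq_zero_iff_dvd]
      push_cast
      rw [h3]
      ring
  set d := orderOf (q : ZMod p) with hd
  set n := padicValNat p (q ^ (p - 1) - 1) with hn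
  refine ⟨by omega, ?_⟩
  -- `p ^ n ∣ q ^ d - 1`
  have hqd : (p : ℤ) ∣ (q : ℤ) ^ d - 1 := by
    rw [← ZMod.intCast_zmod_eq_zero_iff_dvd]
    push_cast
    rw [hd, pow_orderOf_eq_one, sub_self]
  have hx : ¬ (p : ℤ) ∣ (q : ℤ) ^ d := fun hx =>
    h.not_dvd ((Nat.prime_iff_prime_int.1 hp).dvd_of_dvd_pow hx)
  have hqd1 : (p : ℤ) ^ n ∣ ((q : ℤ) ^ d) ^ (p - 1) - 1 := by
    rw [← pow_mul, mul_comm, pow_mul]
    exact (h.dvd le_rfl).trans (sub_one_dvd_pow_sub_one _ _)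
  have h1 := lift (y := 1) hp hx hqd hqd1 (by simp)
  have hgeom : (∑ i ∈ Finset.range d, (q : ℤ) ^ i) * ((q : ℤ) - 1) = (q : ℤ) ^ d - 1 :=
    geom_sum_mul _ _
  rw [← hgeom] at h1
  have hcop : IsCoprime ((p : ℤ) ^ n) ((q : ℤ) - 1) :=
    IsCoprime.pow_left (((Nat.prime_iff_prime_int.1 hp).coprime_iff_not_dvd).2 h.not_dvd_sub)
  have h2 : (p : ℤ) ^ n ∣ ∑ i ∈ Finset.range d, (q : ℤ) ^ i := hcop.dvd_of_dvd_mul_right h1
  have h3 : p ^ n ∣ ∑ i ∈ Finset.range d, q ^ i := by exact_mod_cast h2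
  obtain ⟨L, hL⟩ := h3
  have hqZ : (q : ℤ) ≠ 0 := by exact_mod_cast hq.pos.ne'
  -- the sum modulo `q ^ 2`
  have h4 : (∑ i ∈ Finset.range d, (q : ℤ) ^ i) ≡ 1 + q [ZMOD (q : ℤ) ^ 2] := by
    obtain ⟨e, he⟩ : ∃ e, d = 2 + e := ⟨d - 2, by omega⟩
    rw [he, Finset.sum_range_add]
    have h5 : (q : ℤ) ^ 2 ∣ ∑ i ∈ Finset.range e, (q : ℤ) ^ (2 + i) :=
      Finset.dvd_sum fun i _ => pow_dvd_pow _ (by omega)
    have h6 : ∑ i ∈ Finset.range 2, (q : ℤ) ^ i = 1 + q := by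
      simp [Finset.sum_range_succ]
    rw [h6]
    obtain ⟨c, hc⟩ := h5
    rw [hc]
    exact Int.modEq_iff_dvd.2 ⟨-c, by ring⟩
  have h7 : ((p : ℤ) ^ n * L) ≡ 1 + q [ZMOD (q : ℤ) ^ 2] := by
    have : ((p : ℤ) ^ n * L) = ∑ i ∈ Finset.range d, (q : ℤ) ^ i := by
      have e : ((∑ i ∈ Finset.range d, q ^ i : ℕ) : ℤ) = ((p ^ n * L : ℕ) : ℤ) := by rw [hL]
      push_cast at e
      exact e.symm
    rw [this]
    exact h4
  have h8 : (p : ℤ) ^ (q - 1) ≡ 1 [ZMOD (q : ℤ) ^ 2] := by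
    have hf : q ^ 2 ∣ p ^ (q - 1) - 1 := (pow_dvd_pow q h.2.2.2.1).trans pow_padicValNat_dvd
    have hone : 1 ≤ p ^ (q - 1) := Nat.one_le_pow _ _ hp.pos
    have hf' := Int.natCast_dvd_natCast.2 hf
    push_cast [Nat.cast_sub hone] at hf'
    exact (Int.modEq_iff_dvd.2 hf').symm
  have h9 : (L : ℤ) ^ (q - 1) ≡ 1 - q [ZMOD (q : ℤ) ^ 2] := by
    have e1 := (h7.pow (q - 1)).trans (one_add_pow_mod q (q - 1))
    rw [mul_pow, ← pow_mul, mul_comm n, pow_mul] at e1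
    have e2 : ((p : ℤ) ^ (q - 1)) ^ n * (L : ℤ) ^ (q - 1) ≡ (L : ℤ) ^ (q - 1)
        [ZMOD (q : ℤ) ^ 2] := by
      have := (h8.pow n).mul_right ((L : ℤ) ^ (q - 1))
      simpa using this
    have e3 : (1 : ℤ) + ((q - 1 : ℕ) : ℤ) * q ≡ 1 - q [ZMOD (q : ℤ) ^ 2] := by
      rw [Nat.cast_sub hq.one_le]
      exact Int.modEq_iff_dvd.2 ⟨-1, by push_cast; ring⟩
    exact (e2.symm.trans e1).trans e3
  refine ⟨L, hL, h9, ?_⟩
  by_contra hcon
  push Not at hcon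
  have hL0 : L ≠ 0 := by
    rintro rfl
    rw [mul_zero] at hL
    have : 0 < ∑ i ∈ Finset.range d, q ^ i :=
      Finset.sum_pos (fun i _ => Nat.pow_pos hq.pos) ⟨0, Finset.mem_range.2 hd0⟩
    omega
  have hmul : ∀ m : ℕ, m ≠ 0 → m ∣ L → (m : ℤ) ^ (q - 1) ≡ 1 [ZMOD (q : ℤ) ^ 2] := by
    intro m
    induction m using Nat.recOnMul with
    | zero => intro h0; exact absurd rfl h0
    | one => intro _ _; simp [Int.ModEq]
    | prime r hr =>
      intro _ hrL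
      have hf := hcon r hr hrL
      have hone : 1 ≤ r ^ (q - 1) := Nat.one_le_pow _ _ hr.pos
      have hf' := Int.natCast_dvd_natCast.2 hf
      push_cast [Nat.cast_sub hone] at hf'
      exact (Int.modEq_iff_dvd.2 hf').symm
    | mul a b iha ihb =>
      intro h0 hab
      have ha := iha (left_ne_zero_of_mul h0) ((Dvd.intro b rfl).trans hab)
      have hb := ihb (right_ne_zero_of_mul h0) ((Dvd.intro_left a rfl).trans hab)
      push_cast
      rw [mul_pow]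
      simpa using ha.mul hb
  have h10 := (hmul L hL0 dvd_rfl).symm.trans h9
  have h11 := Int.modEq_iff_dvd.1 h10
  have h12 : (q : ℤ) ^ 2 ∣ (q : ℤ) := by
    have : (1 : ℤ) - q - 1 = -q := by ring
    rw [this] at h11
    exact (dvd_neg).1 h11
  have h13 : q ^ 2 ∣ q := by exact_mod_cast h12
  have h14 := Nat.le_of_dvd hq.pos h13
  have := hq.two_le
  nlinarith

/-- For all primes `p ≠ q`, with `d` the order of `q` modulo `p` and `u = v_p (q ^ (p - 1) - 1)`: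
`p ^ u ∣ Φ_d(q)`, so `p ^ u ≤ (q + 1) ^ φ(d)`, and `φ(d) ≤ φ(p - 1)`. -/
theorem val_bound {p q : ℕ} (hp : p.Prime) (hq : q.Prime) (hpq : p ≠ q) :
    p ^ padicValNat p (q ^ (p - 1) - 1) ≤ (q + 1) ^ (orderOf (q : ZMod p)).totient ∧
      (orderOf (q : ZMod p)).totient ≤ (p - 1).totient := by
  have : Fact p.Prime := ⟨hp⟩
  have hnd : ¬ (p : ℤ) ∣ (q : ℤ) := by
    intro h1
    have h2 := Int.natCast_dvd_natCast.1 h1
    rcases (Nat.dvd_prime hq).1 h2 with h5 | h5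
    · exact hp.one_lt.ne' h5
    · exact hpq h5
  have hq0 : (q : ZMod p) ≠ 0 := by
    intro h0
    rw [ZMod.natCast_eq_zero_iff] at h0
    exact hnd (Int.natCast_dvd_natCast.2 h0)
  have hp1 : 0 < p - 1 := by have := hp.two_le; omega
  have hdvd : orderOf (q : ZMod p) ∣ p - 1 :=
    orderOf_dvd_of_pow_eq_one (ZMod.pow_card_sub_one_eq_one hq0)
  have hd0 : 0 < orderOf (q : ZMod p) := Nat.pos_of_dvd_of_pos hdvd hp1
  refine ⟨?_, Nat.le_of_dvd (Nat.totient_pos.2 hp1) (Nat.totient_dvd_of_dvd hdvd)⟩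
  set d := orderOf (q : ZMod p) with hd
  set n := padicValNat p (q ^ (p - 1) - 1) with hn
  have hqn : (p : ℤ) ^ n ∣ (q : ℤ) ^ (p - 1) - 1 := by
    have h1 : p ^ n ∣ q ^ (p - 1) - 1 := pow_padicValNat_dvd
    have h2 : 1 ≤ q ^ (p - 1) := Nat.one_le_pow _ _ hq.pos
    have h3 := Int.natCast_dvd_natCast.2 h1
    push_cast [Nat.cast_sub h2] at h3
    exact h3
  have hqd : (p : ℤ) ∣ (q : ℤ) ^ d - 1 := by
    rw [← ZMod.intCast_zmod_eq_zero_iff_dvd]
    push_cast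
    rw [hd, pow_orderOf_eq_one, sub_self]
  have hx : ¬ (p : ℤ) ∣ (q : ℤ) ^ d := fun hx =>
    hnd ((Nat.prime_iff_prime_int.1 hp).dvd_of_dvd_pow hx)
  have hqd1 : (p : ℤ) ^ n ∣ ((q : ℤ) ^ d) ^ (p - 1) - 1 := by
    rw [← pow_mul, mul_comm, pow_mul]
    exact hqn.trans (sub_one_dvd_pow_sub_one _ _)
  have h1 : (p : ℤ) ^ n ∣ (q : ℤ) ^ d - 1 := lift (y := 1) hp hx hqd hqd1 (by simp)
  have hprod : ∏ i ∈ d.divisors, (Polynomial.cyclotomic i ℤ).eval (q : ℤ) = (q : ℤ) ^ d - 1 := by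
    rw [← Polynomial.eval_prod, Polynomial.prod_cyclotomic_eq_X_pow_sub_one hd0]
    simp
  have hself : d ∈ d.divisors := Nat.mem_divisors_self d hd0.ne'
  rw [← hprod, ← Finset.mul_prod_erase _ _ hself] at h1
  have hcop : IsCoprime ((p : ℤ) ^ n)
      (∏ i ∈ d.divisors.erase d, (Polynomial.cyclotomic i ℤ).eval (q : ℤ)) := by
    apply IsCoprime.pow_left
    rw [(Nat.prime_iff_prime_int.1 hp).coprime_iff_not_dvd,
      (Nat.prime_iff_prime_int.1 hp).dvd_finsetProd_iff]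
    rintro ⟨i, hi, h2⟩
    rw [Finset.mem_erase, Nat.mem_divisors] at hi
    have h3 : (Polynomial.cyclotomic i ℤ).eval (q : ℤ) ∣ (q : ℤ) ^ i - 1 := by
      have h4 := Polynomial.eval_dvd (x := (q : ℤ)) (Polynomial.cyclotomic.dvd_X_pow_sub_one i ℤ)
      simpa using h4
    have h5 := h2.trans h3
    rw [← ZMod.intCast_zmod_eq_zero_iff_dvd] at h5
    push_cast at h5
    have h6 : orderOf (q : ZMod p) ∣ i := orderOf_dvd_of_pow_eq_one (sub_eq_zero.1 h5)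
    have h7 := Nat.dvd_antisymm hi.2.1 h6
    exact hi.1 h7
  have h2 : (p : ℤ) ^ n ∣ (Polynomial.cyclotomic d ℤ).eval (q : ℤ) :=
    hcop.dvd_of_dvd_mul_right h1
  have hpos : 0 < (Polynomial.cyclotomic d ℤ).eval (q : ℤ) := by
    have hq1 : (1 : ℤ) < q := by exact_mod_cast hq.one_lt
    exact Polynomial.cyclotomic_pos' d hq1
  have h3 := Int.le_of_dvd hpos h2
  have h4 : (((Polynomial.cyclotomic d ℤ).eval (q : ℤ) : ℤ) : ℝ) ≤ ((q : ℝ) + 1) ^ d.totient := by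
    have h5 := Polynomial.cyclotomic_eval_le_add_one_pow_totient
      (q := (q : ℝ)) (by exact_mod_cast hq.one_lt) d
    have h6 : (((Polynomial.cyclotomic d ℤ).eval (q : ℤ) : ℤ) : ℝ) =
        (Polynomial.cyclotomic d ℝ).eval (q : ℝ) := by
      rw [← Polynomial.map_cyclotomic_int d ℝ]
      have := Polynomial.eval_intCast_map (Int.castRingHom ℝ) (Polynomial.cyclotomic d ℤ) (q : ℤ)
      simp at this
      simp [this]
    rw [h6]
    exact h5
  have h7 : ((p : ℝ)) ^ n ≤ ((q : ℝ) + 1) ^ d.totient := by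
    have : (((p : ℤ) ^ n : ℤ) : ℝ) ≤ (((Polynomial.cyclotomic d ℤ).eval (q : ℤ) : ℤ) : ℝ) := by
      exact_mod_cast h3
    push_cast at this
    exact this.trans h4
  exact_mod_cast h7

end Pool.Agent.MP7f7658

namespace Pool.Agent.Results.MP_7f7658_nt.LogSparse

open Pool.Agent.MP7f7658

/-- **Extreme Wieferich pairs with `q > p ^ 2` are log-sparse for every `p`.**
(1) For every `p` and `X` at most `((p - 3) / 2) * (⌊log_p X⌋ - 1)` primes `q ≤ X` have `q > p ^ 2`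
and `(p, q)` extreme (subtraction and division of natural numbers; the bound is `0` for
`p = 2, 3`).  (2) For every `p` and `v` at most `(p - 3) / 2` numbers `q` with
`p ^ v < q < p ^ (v + 1)` make an extreme pair `(p, q)`.  (3) If `(p, q)` is extreme, `d` is the
order of `q` modulo `p` and `u = v_p (q ^ (p - 1) - 1)`, then `p ≥ 5`, `d ≥ 3`,
`1 + q + ... + q ^ (d - 1) = p ^ u * L` with `L ^ (q - 1) ≡ 1 - q` modulo `q ^ 2`, and some prime
factor `r` of `L` has `q ^ 2 ∤ r ^ (q - 1) - 1`.  (4) For all primes `p ≠ q`, with the same `d`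
and `u`: `p ^ u ≤ (q + 1) ^ φ(d)` and `φ(d) ≤ φ(p - 1)`. -/
theorem result :
    (∀ p X : ℕ, {q | Extreme p q ∧ p ^ 2 < q ∧ q ≤ X}.ncard ≤
      (p - 3) / 2 * (Nat.log p X - 1)) ∧
    (∀ p v : ℕ, {q | Extreme p q ∧ p ^ v < q ∧ q < p ^ (v + 1)}.ncard ≤ (p - 3) / 2) ∧
    (∀ p q : ℕ, Extreme p q → 5 ≤ p ∧ 3 ≤ orderOf (q : ZMod p) ∧ ∃ L : ℕ,
      ∑ i ∈ Finset.range (orderOf (q : ZMod p)), q ^ i =
        p ^ padicValNat p (q ^ (p - 1) - 1) * L ∧
      (L : ℤ) ^ (q - 1) ≡ 1 - q [ZMOD (q : ℤ) ^ 2] ∧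
      ∃ r : ℕ, r.Prime ∧ r ∣ L ∧ ¬ q ^ 2 ∣ r ^ (q - 1) - 1) ∧
    (∀ p q : ℕ, p.Prime → q.Prime → p ≠ q →
      p ^ padicValNat p (q ^ (p - 1) - 1) ≤ (q + 1) ^ (orderOf (q : ZMod p)).totient ∧
        (orderOf (q : ZMod p)).totient ≤ (p - 1).totient) := by
  refine ⟨count_bound, interval_bound, fun p q h => ⟨?_, cofactor h⟩,
    fun p q hp hq hpq => val_bound hp hq hpq⟩
  have h2 := h.odd_p
  have h3 := h.1.two_le
  by_contra h5
  have h6 : p = 3 := by omega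
  have hq := h.not_dvd
  have hq1 := h.not_dvd_sub
  have hq2 := h.not_dvd_add
  subst h6
  omega

end Pool.Agent.Results.MP_7f7658_nt.LogSparse
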